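import Mathlib

/-!
# A moment inequality for sums of independent bounded variables of mean zero (for project CS)
-/

set_option autoImplicit false

namespace Pool.Agent.Y836.CS

open Finset

variable {α : Type} [Fintype α] [DecidableEq α]

/-- number of `j` with `u j = i` -/
def cc {n k : ℕ} (u : Fin k → Fin n) (i : Fin n) : ℕ := (univ.filter fun j => u j = i).card

lemma prod_eq {n k : ℕ} (h : α → ℝ) (u : Fin k → Fin n) (f : Fin n → α) :
    ∏ j, h (f (u j)) = ∏ i, h (f i) ^ cc u i := by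
  rw [← Finset.prod_fiberwise univ u (fun j => h (f (u j)))]
  apply Finset.prod_congr rfl
  intro i _
  rw [cc, ← Finset.prod_const]
  apply Finset.prod_congr rfl
  intro j hj
  rw [(Finset.mem_filter.mp hj).2]

lemma sum_prod_eq {n k : ℕ} (h : α → ℝ) (u : Fin k → Fin n) :
    ∑ f : Fin n → α, ∏ j, h (f (u j)) = ∏ i, ∑ a, h a ^ cc u i := by
  simp_rw [prod_eq]
  rw [Finset.prod_univ_sum, Fintype.piFinset_univ]

lemma sq_le_card (h : α → ℝ) (h1 : ∀ a, |h a| ≤ 1) : ∑ a, h a ^ 2 ≤ (Fintype.card α : ℝ) := by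
  calc ∑ a, h a ^ 2 ≤ ∑ _a : α, (1 : ℝ) := by
        apply Finset.sum_le_sum
        intro a _
        have := h1 a
        rw [← sq_abs]
        have h0 := abs_nonneg (h a)
        nlinarith
    _ = Fintype.card α := by simp

lemma pow_sum_le (h : α → ℝ) (h1 : ∀ a, |h a| ≤ 1) (c : ℕ) (hc : 2 ≤ c) :
    |∑ a, h a ^ c| ≤ ∑ a, h a ^ 2 := by
  calc |∑ a, h a ^ c| ≤ ∑ a, |h a ^ c| := Finset.abs_sum_le_sum_abs _ _
    _ ≤ ∑ a, h a ^ 2 := by
        apply Finset.sum_le_sum
        intro a _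
        rw [abs_pow, ← sq_abs (h a)]
        exact pow_le_pow_of_le_one (abs_nonneg _) (h1 a) hc

lemma pow_sum_le' (h : α → ℝ) (h1 : ∀ a, |h a| ≤ 1) (c : ℕ) :
    |∑ a, h a ^ c| ≤ (Fintype.card α : ℝ) := by
  calc |∑ a, h a ^ c| ≤ ∑ a, |h a ^ c| := Finset.abs_sum_le_sum_abs _ _
    _ ≤ ∑ _a : α, (1 : ℝ) := by
        apply Finset.sum_le_sum
        intro a _
        rw [abs_pow]
        exact pow_le_one₀ (abs_nonneg _) (h1 a)
    _ = Fintype.card α := by simp

/-- the term of a given `u` -/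
lemma term_le {n k : ℕ} (hk : 1 ≤ k) (h : α → ℝ) (h1 : ∀ a, |h a| ≤ 1) (h0 : ∑ a, h a = 0)
    (u : Fin k → Fin n) :
    ∑ f : Fin n → α, ∏ j, h (f (u j)) ≤
      if ∀ i, cc u i ≠ 1 then (Fintype.card α : ℝ) ^ (n - 1) * ∑ a, h a ^ 2 else 0 := by
  rw [sum_prod_eq]
  split_ifs with hu
  · set i₀ := u ⟨0, hk⟩ with hi₀
    have hpos : cc u i₀ ≠ 0 := by
      rw [cc, Finset.card_ne_zero]
      exact ⟨⟨0, hk⟩, by simp [hi₀]⟩
    have h2 : 2 ≤ cc u i₀ := by
      have := hu i₀
      omega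
    refine (le_abs_self _).trans ?_
    rw [Finset.abs_prod, ← Finset.mul_prod_erase univ _ (Finset.mem_univ i₀), mul_comm]
    apply mul_le_mul
    · calc ∏ i ∈ univ.erase i₀, |∑ a, h a ^ cc u i|
          ≤ ∏ i ∈ univ.erase i₀, (Fintype.card α : ℝ) := by
            apply Finset.prod_le_prod
            · intro i _
              exact abs_nonneg _
            · intro i _
              exact pow_sum_le' h h1 _
        _ = (Fintype.card α : ℝ) ^ (n - 1) := by
            rw [Finset.prod_const, Finset.card_erase_of_mem (Finset.mem_univ _)]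
            simp
    · exact pow_sum_le h h1 _ h2
    · exact abs_nonneg _
    · positivity
  · push Not at hu
    obtain ⟨i, hi⟩ := hu
    apply le_of_eq
    apply Finset.prod_eq_zero (Finset.mem_univ i)
    rw [hi]
    simpa using h0

lemma sum_cc {n k : ℕ} (u : Fin k → Fin n) : ∑ i, cc u i = k := by
  unfold cc
  rw [← Finset.card_eq_sum_card_fiberwise (fun _ _ => Finset.mem_univ _)]
  simp

lemma card_image_le {n m : ℕ} (u : Fin (2 * m) → Fin n) (hu : ∀ i, cc u i ≠ 1) :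
    (univ.image u).card ≤ m := by
  have h1 : 2 * (univ.image u).card ≤ ∑ i ∈ univ.image u, cc u i := by
    rw [mul_comm, ← smul_eq_mul, ← Finset.sum_const]
    apply Finset.sum_le_sum
    intro i hi
    obtain ⟨j, _, hj⟩ := Finset.mem_image.mp hi
    have : cc u i ≠ 0 := by
      rw [cc, Finset.card_ne_zero]
      exact ⟨j, by simp [hj]⟩
    have := hu i
    omega
  have h2 : ∑ i ∈ univ.image u, cc u i ≤ ∑ i, cc u i :=
    Finset.sum_le_sum_of_subset (Finset.subset_univ _)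
  rw [sum_cc] at h2
  omega

lemma count_le {n m : ℕ} (hm : m ≤ n) :
    (univ.filter fun u : Fin (2 * m) → Fin n => ∀ i, cc u i ≠ 1).card ≤ n.choose m * m ^ (2 * m) := by
  have hsub : (univ.filter fun u : Fin (2 * m) → Fin n => ∀ i, cc u i ≠ 1) ⊆
      (Finset.powersetCard m (univ : Finset (Fin n))).biUnion
        fun T => Fintype.piFinset fun _ : Fin (2 * m) => T := by
    intro u hu
    have hu' := (Finset.mem_filter.mp hu).2
    obtain ⟨T, hT1, hT2⟩ := Finset.exists_superset_card_eq (card_image_le u hu') (by simpa using hm)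
    rw [Finset.mem_biUnion]
    refine ⟨T, ?_, ?_⟩
    · rw [Finset.mem_powersetCard]
      exact ⟨Finset.subset_univ _, hT2⟩
    · rw [Fintype.mem_piFinset]
      intro j
      exact hT1 (Finset.mem_image_of_mem _ (Finset.mem_univ _))
  refine (Finset.card_le_card hsub).trans ?_
  refine Finset.card_biUnion_le.trans ?_
  calc ∑ T ∈ Finset.powersetCard m (univ : Finset (Fin n)),
        (Fintype.piFinset fun _ : Fin (2 * m) => T).card
      = ∑ T ∈ Finset.powersetCard m (univ : Finset (Fin n)), m ^ (2 * m) := by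
        apply Finset.sum_congr rfl
        intro T hT
        rw [Fintype.card_piFinset_const, (Finset.mem_powersetCard.mp hT).2]
    _ ≤ n.choose m * m ^ (2 * m) := by
        rw [Finset.sum_const, Finset.card_powersetCard]
        simp

lemma numeric (n m : ℕ) : ((n.choose m * m ^ (2 * m) : ℕ) : ℝ) ≤ (3 * m * n : ℝ) ^ m := by
  have h1 : ((n.choose m : ℕ) : ℝ) ≤ (n : ℝ) ^ m / (m.factorial : ℝ) := Nat.choose_le_pow_div m n
  have h2 : (m : ℝ) ^ m / (m.factorial : ℝ) ≤ 3 ^ m := by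
    refine (Real.pow_div_factorial_le_exp (m : ℝ) (by positivity) m).trans ?_
    rw [← mul_one (m : ℝ), Real.exp_nat_mul]
    apply pow_le_pow_left₀ (Real.exp_pos _).le
    have := Real.exp_one_lt_d9
    linarith
  push_cast
  calc (n.choose m : ℝ) * (m : ℝ) ^ (2 * m) ≤ ((n : ℝ) ^ m / (m.factorial : ℝ)) * (m : ℝ) ^ (2 * m) :=
        mul_le_mul_of_nonneg_right h1 (by positivity)
    _ = ((n : ℝ) ^ m * (m : ℝ) ^ m) * ((m : ℝ) ^ m / (m.factorial : ℝ)) := by
        rw [two_mul, pow_add]; ring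
    _ ≤ ((n : ℝ) ^ m * (m : ℝ) ^ m) * 3 ^ m := mul_le_mul_of_nonneg_left h2 (by positivity)
    _ = (3 * m * n : ℝ) ^ m := by
        rw [mul_pow, mul_pow]; ring

/-- the moment inequality -/
theorem mz_core (h : α → ℝ) (n m : ℕ) (hm1 : 1 ≤ m) (hmn : m ≤ n) (h0 : ∑ a, h a = 0)
    (h1 : ∀ a, |h a| ≤ 1) :
    ∑ f : Fin n → α, (∑ i, h (f i)) ^ (2 * m) ≤
      (3 * m * n : ℝ) ^ m * (Fintype.card α : ℝ) ^ (n - 1) * ∑ a, h a ^ 2 := by
  have hV : 0 ≤ ∑ a, h a ^ 2 := Finset.sum_nonneg fun a _ => sq_nonneg _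
  have e1 : ∀ f : Fin n → α, (∑ i, h (f i)) ^ (2 * m) =
      ∑ u : Fin (2 * m) → Fin n, ∏ j, h (f (u j)) := by
    intro f
    rw [Fintype.sum_pow (fun i => h (f i)) (2 * m)]
  calc ∑ f : Fin n → α, (∑ i, h (f i)) ^ (2 * m)
      = ∑ u : Fin (2 * m) → Fin n, ∑ f : Fin n → α, ∏ j, h (f (u j)) := by
        simp_rw [e1]
        exact Finset.sum_comm
    _ ≤ ∑ u : Fin (2 * m) → Fin n, (if ∀ i, cc u i ≠ 1 then
          (Fintype.card α : ℝ) ^ (n - 1) * ∑ a, h a ^ 2 else 0) := by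
        apply Finset.sum_le_sum
        intro u _
        exact term_le (by omega) h h1 h0 u
    _ = ((univ.filter fun u : Fin (2 * m) → Fin n => ∀ i, cc u i ≠ 1).card : ℝ) *
          ((Fintype.card α : ℝ) ^ (n - 1) * ∑ a, h a ^ 2) := by
        rw [← Finset.sum_filter, Finset.sum_const, nsmul_eq_mul]
    _ ≤ (3 * m * n : ℝ) ^ m * ((Fintype.card α : ℝ) ^ (n - 1) * ∑ a, h a ^ 2) := by
        apply mul_le_mul_of_nonneg_right _ (by positivity)
        refine le_trans ?_ (numeric n m)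
        exact_mod_cast count_le hmn
    _ = _ := by ring

end Pool.Agent.Y836.CS
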