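import Pool.Agent.Y881.CS.Stm
import Pool.Agent.Y836.CS.MZCore

/-!
# Project CS (helper881), job CS-MZ
-/

set_option autoImplicit false

namespace Pool.Agent.Y836.CS

open Pool.Agent.Y881.CS

theorem t_MZ : S_MZ := by
  intro α _ _ _ h n m hm1 hmn h0 h1
  exact mz_core h n m hm1 hmn h0 h1

end Pool.Agent.Y836.CS
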